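import Pool.Agent.W998.KG.Reg4
import Pool.Agent.W411.KG.TAS
import Pool.Agent.W992.KG.TRE
import Pool.Agent.W733.KG.CLS
import Pool.Agent.W592.KG.DEG
import Pool.Agent.W33.KG.EVN
import Pool.Agent.W2.KG.AND
import Pool.Agent.W384.KG.MOR

set_option autoImplicit false

namespace Pool.Agent.X72.SteffenRing

open Pool.Agent.Results.MP_633d19_co.SmallDegree
open Pool.Agent.Results.MP_633d19_co.SmallDegree.MGraph
open Pool.Agent.W998.KG

/-- The cycles of states are closed and chordless whenever `g ≥ 5` is odd and `μ ≤ (⌊g/2⌋+1) T`. -/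
theorem closedReg_all {Δ T μ g : ℕ} (hg : 5 ≤ g) (hgo : g % 2 = 1) (hT : 1 ≤ T)
    (hμ : μ ≤ (g / 2 + 1) * T) : ClosedReg Δ T μ g := by
  rcases Nat.lt_or_ge g 8 with h8 | h8
  · have hTRE : PartTRE := Pool.Agent.W992.KG.TRE.main Pool.Agent.W411.KG.main
    exact @closedReg_three @hTRE Pool.Agent.W733.KG.CLS.main
      Pool.Agent.W592.KG.DEG.main Pool.Agent.W33.KG.EVN.main Pool.Agent.W2.KG.main
      Pool.Agent.W384.KG.MOR.main Δ T μ g
      (Or.inr ⟨hg, by omega, hT, hμ⟩)
  · apply closedReg_cond hT (by omega)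
    left
    obtain ⟨p, hp⟩ : ∃ p, g / 2 = p := ⟨_, rfl⟩
    rw [hp] at hμ
    have hg' : g = 2 * p + 1 := by omega
    obtain ⟨p', rfl⟩ : ∃ p', p = p' + 4 := ⟨p - 4, by omega⟩
    have e1 : 2 * g - 3 = 4 * p' + 15 := by omega
    rw [e1]
    have h0 : 0 ≤ p' * T := Nat.zero_le _
    nlinarith

/-- Lower bound for the number of edges of the ring. -/
theorem ring_count {V E : Type} [Finite V] [Finite E] {G : MGraph V E} {k l : ℕ} {y : ℕ → V}
    {f : ℕ → E} {α β : Fin k} {c : E → Option (Fin k)} (hl : 3 ≤ l)
    (hst : G.State l y f α β c)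
    (hch : ∀ i < l, ∀ j < l, (∃ e, G.ends e = s(y i, y j)) → j = nx l i ∨ i = nx l j)
    (hA : ∀ a : Fin k, a ≠ α → a ≠ β →
      ∃ A : Finset ℕ, (∀ i ∈ A, i < l ∧ In G l y c a i) ∧ l ≤ A.card + 1) :
    (k - 2) * (l - 1) + 2 * l ≤
      2 * Nat.card {e : E // ∃ i < l, G.ends e = s(y i, y (nx l i))} := by
  classical
  have : Fintype E := Fintype.ofFinite E
  have hpv : ∀ i, i < l → ∃ p, p < l ∧ nx l p = i := by
    intro i hi
    by_cases h0 : i = 0
    · exact ⟨l - 1, by omega, by unfold nx; rw [if_pos (by omega)]; omega⟩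
    · exact ⟨i - 1, by omega, by unfold nx; rw [if_neg (by omega)]; omega⟩
  choose! pv hpv1 hpv2 using hpv
  have hnx : ∀ i, i < l → nx l i ≠ i := by
    intro i hi h
    unfold nx at h
    split_ifs at h <;> omega
  have hpvne : ∀ i, i < l → pv i ≠ i := by
    intro i hi h
    have h1 := hpv2 i hi
    rw [h] at h1
    exact hnx i hi h1
  let S : ℕ → Finset E := fun i => Finset.univ.filter fun e =>
    G.ends e = s(y i, y (nx l i)) ∨ G.ends e = s(y i, y (pv i))
  let C : ℕ → Finset (Fin k) := fun i =>
    ((Finset.univ.erase α).erase β).filter fun a => In G l y c a i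
  have finj := G.edge_inj hl hst.inj hst.ed
  have hC : ∀ i, i < l → (C i).card + 2 ≤ (S i).card := by
    intro i hi
    have h1 : (C i).card ≤ ((S i).filter fun e => c e ≠ none).card := by
      have h2 : (C i).image some ⊆ ((S i).filter fun e => c e ≠ none).image c := by
        intro o ho
        rw [Finset.mem_image] at ho
        obtain ⟨a, ha, rfl⟩ := ho
        obtain ⟨e, he, j, hj, hji, hends⟩ := (Finset.mem_filter.1 ha).2
        rw [Finset.mem_image]
        refine ⟨e, Finset.mem_filter.2 ⟨Finset.mem_filter.2 ⟨Finset.mem_univ _, ?_⟩, ?_⟩, he⟩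
        · rcases hch i hi j hj ⟨e, hends⟩ with h | h
          · left
            rw [hends, h]
          · right
            have h5 : pv i = j := by
              apply nx_inj (l := l)
              rw [hpv2 i hi, h]
            rw [hends, h5]
        · rw [he]; simp
      calc (C i).card = ((C i).image some).card :=
            (Finset.card_image_of_injective _ (Option.some_injective _)).symm
        _ ≤ _ := Finset.card_le_card h2
        _ ≤ _ := Finset.card_image_le
    have h6 : 2 ≤ ((S i).filter fun e => ¬ (c e ≠ none)).card := by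
      have h7 : ({f i, f (pv i)} : Finset E) ⊆ (S i).filter fun e => ¬ (c e ≠ none) := by
        intro e he
        rw [Finset.mem_insert, Finset.mem_singleton] at he
        rcases he with rfl | rfl
        · refine Finset.mem_filter.2 ⟨Finset.mem_filter.2 ⟨Finset.mem_univ _, Or.inl
            (hst.ed i hi)⟩, ?_⟩
          rw [not_not]
          exact (hst.none_iff _).2 ⟨i, hi, rfl⟩
        · refine Finset.mem_filter.2 ⟨Finset.mem_filter.2 ⟨Finset.mem_univ _, Or.inr ?_⟩, ?_⟩
          · rw [hst.ed _ (hpv1 i hi), hpv2 i hi, Sym2.eq_swap]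
          · rw [not_not]
            exact (hst.none_iff _).2 ⟨pv i, hpv1 i hi, rfl⟩
      have h8 : f i ≠ f (pv i) := fun h => hpvne i hi (finj _ hi _ (hpv1 i hi) h).symm
      calc 2 = ({f i, f (pv i)} : Finset E).card := (Finset.card_pair h8).symm
        _ ≤ _ := Finset.card_le_card h7
    have h9 := Finset.card_filter_add_card_filter_not (s := S i) (fun e => c e ≠ none)
    omega
  have hcol : ∀ a ∈ (Finset.univ.erase α).erase β,
      l - 1 ≤ ((Finset.range l).filter fun i => In G l y c a i).card := by
    intro a ha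
    obtain ⟨A, hA1, hA2⟩ := hA a (Finset.ne_of_mem_erase (Finset.mem_of_mem_erase ha))
      (Finset.ne_of_mem_erase ha)
    have h1 : A ⊆ (Finset.range l).filter fun i => In G l y c a i := by
      intro i hi
      exact Finset.mem_filter.2 ⟨Finset.mem_range.2 (hA1 i hi).1, (hA1 i hi).2⟩
    have h2 := Finset.card_le_card h1
    omega
  have hcard : ((Finset.univ.erase α).erase β : Finset (Fin k)).card = k - 2 := by
    rw [Finset.card_erase_of_mem (Finset.mem_erase.2 ⟨hst.ne.symm, Finset.mem_univ _⟩),
      Finset.card_erase_of_mem (Finset.mem_univ _), Finset.card_univ, Fintype.card_fin]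
    omega
  have hsum1 : (k - 2) * (l - 1) ≤
      ∑ a ∈ (Finset.univ.erase α).erase β, ((Finset.range l).filter fun i =>
        In G l y c a i).card := by
    have h1 := Finset.sum_le_sum hcol
    rwa [Finset.sum_const, hcard, smul_eq_mul] at h1
  have hsum2 : ∑ a ∈ (Finset.univ.erase α).erase β, ((Finset.range l).filter fun i =>
      In G l y c a i).card = ∑ i ∈ Finset.range l, (C i).card := by
    simp only [C, Finset.card_filter]
    exact Finset.sum_comm
  have hsum3 : ∑ i ∈ Finset.range l, ((C i).card + 2) ≤ ∑ i ∈ Finset.range l, (S i).card :=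
    Finset.sum_le_sum fun i hi => hC i (Finset.mem_range.1 hi)
  rw [Finset.sum_add_distrib, Finset.sum_const, Finset.card_range,
    smul_eq_mul, ← hsum2] at hsum3
  -- the ring edges
  set F : Finset E := Finset.univ.filter (fun e => ∃ i < l, G.ends e = s(y i, y (nx l i)))
    with hF
  have hFc : Nat.card {e : E // ∃ i < l, G.ends e = s(y i, y (nx l i))} = F.card := by
    rw [Nat.card_eq_fintype_card, Fintype.card_subtype]
  have hSF : ∀ i < l, S i = F.filter (fun e => e ∈ S i) := by
    intro i hi
    ext e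
    constructor
    · intro he
      refine Finset.mem_filter.2 ⟨?_, he⟩
      rw [hF, Finset.mem_filter]
      refine ⟨Finset.mem_univ _, ?_⟩
      rcases (Finset.mem_filter.1 he).2 with h | h
      · exact ⟨i, hi, h⟩
      · exact ⟨pv i, hpv1 i hi, by rw [h, hpv2 i hi, Sym2.eq_swap]⟩
    · intro he
      exact (Finset.mem_filter.1 he).2
  have hsum4 : ∑ i ∈ Finset.range l, (S i).card =
      ∑ e ∈ F, ((Finset.range l).filter (fun i => e ∈ S i)).card := by
    have h1 : ∑ i ∈ Finset.range l, (S i).card =
        ∑ i ∈ Finset.range l, (F.filter (fun e => e ∈ S i)).card :=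
      Finset.sum_congr rfl (fun i hi => by rw [← hSF i (Finset.mem_range.1 hi)])
    rw [h1]
    simp only [Finset.card_filter]
    exact Finset.sum_comm
  have hsum5 : ∑ e ∈ F, ((Finset.range l).filter (fun i => e ∈ S i)).card ≤ ∑ e ∈ F, 2 := by
    apply Finset.sum_le_sum
    intro e _
    obtain ⟨x, z, hxz, hends⟩ := G.exists_ends e
    have h1 : (((Finset.range l).filter (fun i => e ∈ S i)).image y) ⊆ {x, z} := by
      intro u hu
      rw [Finset.mem_image] at hu
      obtain ⟨i, hi, rfl⟩ := hu
      have h2 := (Finset.mem_filter.1 (Finset.mem_filter.1 hi).2).2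
      have h3 : y i ∈ G.ends e := by
        rcases h2 with h | h
        · rw [h]; simp
        · rw [h]; simp
      rw [hends, Sym2.mem_iff] at h3
      rw [Finset.mem_insert, Finset.mem_singleton]
      exact h3
    have h2 : (((Finset.range l).filter (fun i => e ∈ S i)).image y).card =
        ((Finset.range l).filter (fun i => e ∈ S i)).card := by
      apply Finset.card_image_of_injOn
      intro i hi j hj hij
      have hi' := Finset.mem_range.1 (Finset.mem_filter.1 hi).1
      have hj' := Finset.mem_range.1 (Finset.mem_filter.1 hj).1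
      exact hst.inj i hi' j hj' hij
    rw [← h2]
    exact (Finset.card_le_card h1).trans Finset.card_le_two
  rw [Finset.sum_const, smul_eq_mul] at hsum5
  rw [hFc]
  omega

/-- A graph which is not `Δ + T`-colourable contains an overfull ring of order `g`. -/
theorem exists_ring {Δ T μ g : ℕ} (hg : 5 ≤ g) (hgo : g % 2 = 1) (hT : 1 ≤ T)
    (hμ : μ ≤ (g / 2 + 1) * T) (hμg : μ ≤ (g / 2) * (T + 1)) (n : ℕ) :
    ∀ {V : Type} (E : Type) [Finite V] [Finite E] (G : MGraph V E), Nat.card E = n →
      (∀ u, G.degree u ≤ Δ) → (∀ u w, u ≠ w → G.mult u w ≤ μ) →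
      (∀ l, 3 ≤ l → G.HasCycle l → g ≤ l) → ¬ G.Colorable (Δ + T) →
      ∃ v : ℕ → V, (∀ i < g, ∀ j < g, v i = v j → i = j) ∧
        (∀ i < g, ∃ e, G.ends e = s(v i, v ((i + 1) % g))) ∧
        (Δ + T) * (g / 2) < Nat.card {e : E // ∃ i < g, G.ends e = s(v i, v ((i + 1) % g))} := by
  classical
  have hreg : ClosedReg Δ T μ g := closedReg_all hg hgo hT hμ
  have hINN : PartINN := Pool.Agent.W648.KG.INN.main (Pool.Agent.W675.KG.EXI.main
    Pool.Agent.W29.KG.main Pool.Agent.W460.KG.ODD.main Pool.Agent.W191.KG.SWP.main)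
  induction n with
  | zero =>
    intro V E _ _ G hE _ _ _ hG
    exfalso
    apply hG
    have : IsEmpty E := by
      rcases Nat.card_eq_zero.mp hE with h | h
      · exact h
      · exact absurd ‹Finite E› h.not_finite
    exact ⟨fun e => (this.false e).elim, fun e => (this.false e).elim⟩
  | succ n ih =>
    intro V E _ _ G hE hdeg hmul hcyc hG
    obtain ⟨e0⟩ : Nonempty E := by
      have : 0 < Nat.card E := by omega
      exact (Nat.card_pos_iff.mp this).1
    by_cases hdel : (G.del e0).Colorable (Δ + T)
    · obtain ⟨l, y, f, α, β, c, hl, hodd, H⟩ :=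
        Pool.Agent.W52.KG.STA.main G (k := Δ + T) (Δ := Δ) (by omega) hdeg hG e0 hdel
      have hΔ : Δ ≤ 2 * μ := by
        by_contra hcon
        push Not at hcon
        exact hG (colorable_above hreg hT hcon hμg _ E G rfl hdeg hmul hcyc)
      have hlg : g ≤ l := hcyc l hl ⟨y, H.inj, fun i hi => ⟨f i, by rw [mod_eq_nx hi, H.ed i hi]⟩⟩
      have hb := H.bound hl hodd hG hdeg (by omega)
      have hlg2 : l = g := by
        have e1 : Δ + T - Δ = T := by omega
        rw [e1] at hb
        obtain ⟨q, hq⟩ : ∃ q, l = 2 * q + 1 := ⟨l / 2, by omega⟩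
        obtain ⟨p, hp⟩ : ∃ p, g / 2 = p := ⟨_, rfl⟩
        rw [hp] at hμ
        have hgp : g = 2 * p + 1 := by omega
        have h1 : l * T = 2 * (q * T) + T := by rw [hq]; ring
        have h2 : q * T < (p + 1) * T := by
          have : 2 * (q * T) + 2 ≤ Δ := by omega
          omega
        have h3 : q < p + 1 := Nat.lt_of_mul_lt_mul_right h2
        omega
      subst hlg2
      have hcl : ∀ c : E → Option (Fin (Δ + T)), G.State l y f α β c → ∀ a : Fin (Δ + T),
          (∃ j < l, G.Miss c (y j) a) → ∀ i < l, ¬ Lv G l y c a i := fun c' H' =>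
        (hreg hG hdeg hmul hcyc hl hodd H').1
      have hex : ∀ c : E → Option (Fin (Δ + T)), G.State l y f α β c →
          ∀ i < l, (G.ms c α β (y i)).Nonempty := by
        intro c' H' i hi
        have := H'.card_ms hl hdeg hi
        rw [← Finset.card_pos]
        omega
      have h1 := ring_count hl H (hreg hG hdeg hmul hcyc hl hodd H).2
        (fun a h2 h3 => hINN hl hodd hG hcl hex H a h2 h3)
      refine ⟨y, H.inj, fun i hi => ⟨f i, by rw [mod_eq_nx hi, H.ed i hi]⟩, ?_⟩
      have h2 : Nat.card {e : E // ∃ i < l, G.ends e = s(y i, y ((i + 1) % l))} =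
          Nat.card {e : E // ∃ i < l, G.ends e = s(y i, y (nx l i))} := by
        apply Nat.card_congr
        apply Equiv.subtypeEquivRight
        intro e
        constructor
        · rintro ⟨i, hi, h⟩
          exact ⟨i, hi, by rw [h, mod_eq_nx hi]⟩
        · rintro ⟨i, hi, h⟩
          exact ⟨i, hi, by rw [h, mod_eq_nx hi]⟩
      rw [h2]
      have hk2 : 2 ≤ Δ + T := by
        have := (Finset.card_pair H.ne)
        have h3 : ({α, β} : Finset (Fin (Δ + T))).card ≤ Fintype.card (Fin (Δ + T)) :=
          Finset.card_le_univ _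
        rw [this, Fintype.card_fin] at h3
        exact h3
      obtain ⟨K, hK⟩ : ∃ K, Δ + T = K + 2 := ⟨Δ + T - 2, by omega⟩
      rw [hK] at h1 ⊢
      simp only [Nat.add_sub_cancel] at h1
      obtain ⟨p, hp⟩ : ∃ p, l = 2 * p + 1 := ⟨l / 2, by omega⟩
      have e1 : l - 1 = 2 * p := by omega
      have e2 : l / 2 = p := by omega
      rw [e1] at h1
      rw [e2]
      have e3 : K * (2 * p) + 2 * l = 2 * ((K + 2) * p) + 2 := by rw [hp]; ring
      omega
    · have hcard : Nat.card {e : E // e ≠ e0} = n := by
        have := Fintype.ofFinite E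
        rw [Nat.card_eq_fintype_card] at hE ⊢
        have h1 := Fintype.card_subtype_compl (fun e : E => e = e0)
        simp only [Fintype.card_subtype_eq] at h1
        rw [hE] at h1
        simpa using h1
      obtain ⟨v, hv1, hv2, hv3⟩ := ih {e : E // e ≠ e0} (G.del e0) hcard
        (fun u => (G.del_degree e0 u).trans (hdeg u))
        (by
          intro u w huw
          refine le_trans ?_ (hmul u w huw)
          unfold mult
          apply Nat.card_le_card_of_injective
            (fun x : {e : {e : E // e ≠ e0} // (G.del e0).ends e = s(u, w)} =>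
              (⟨x.1.1, x.2⟩ : {e : E // G.ends e = s(u, w)}))
          intro x y hxy
          have := congrArg Subtype.val hxy
          exact Subtype.ext (Subtype.ext this))
        (by
          intro l h1 ⟨v, h3, h4⟩
          refine hcyc l h1 ⟨v, h3, fun i hi => ?_⟩
          obtain ⟨e, he⟩ := h4 i hi
          exact ⟨e.1, he⟩)
        hdel
      refine ⟨v, hv1, fun i hi => ?_, lt_of_lt_of_le hv3 ?_⟩
      · obtain ⟨e, he⟩ := hv2 i hi
        exact ⟨e.1, he⟩
      · apply Nat.card_le_card_of_injective
          (fun x : {e : {e : E // e ≠ e0} // ∃ i < g, (G.del e0).ends e =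
              s(v i, v ((i + 1) % g))} =>
            (⟨x.1.1, x.2⟩ : {e : E // ∃ i < g, G.ends e = s(v i, v ((i + 1) % g))}))
        intro x y hxy
        have := congrArg Subtype.val hxy
        exact Subtype.ext (Subtype.ext this)

end Pool.Agent.X72.SteffenRing
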