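import Pool.Agent.X72.SteffenRing.Core

set_option autoImplicit false

namespace Pool.Agent.X72.SteffenRing

open Pool.Agent.Results.MP_633d19_co.SmallDegree
open Pool.Agent.Results.MP_633d19_co.SmallDegree.MGraph

variable {V E : Type}

/-- The subgraph of `G` with edge set `F` (isolated vertices are irrelevant here). -/
def restrict (G : MGraph V E) (F : Set E) : MGraph V F where
  ends e := G.ends e.1
  loopless e := G.loopless e.1

/-- The edges in `F` form a ring graph of order `n`: there are distinct vertices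
`v 0, ..., v (n-1)` such that every edge of `F` joins two cyclically consecutive ones, and any
two cyclically consecutive ones are joined by at least one edge of `F`. -/
def IsRing (G : MGraph V E) (F : Set E) (n : ℕ) : Prop :=
  ∃ v : ℕ → V, (∀ i < n, ∀ j < n, v i = v j → i = j) ∧
    (∀ e ∈ F, ∃ i < n, G.ends e = s(v i, v ((i + 1) % n))) ∧
    (∀ i < n, ∃ e ∈ F, G.ends e = s(v i, v ((i + 1) % n)))

/-- `G` has a subgraph which is a ring graph of order `n` with chromatic index `k`. -/
def ContainsRing (G : MGraph V E) (n k : ℕ) : Prop :=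
  ∃ F : Set E, IsRing G F n ∧ (restrict G F).HasChromaticIndex k

/-- In a graph all edges of which lie in a set of `2 * p + 1` vertices every colour is used at
most `p` times. -/
lemma overfull' [Finite E] (G : MGraph V E) {k p : ℕ} (hc : G.Colorable k)
    (X : Finset V) (hX : X.card = 2 * p + 1) (hGX : ∀ e, ∀ u ∈ G.ends e, u ∈ X) :
    Nat.card E ≤ k * p := by
  classical
  have := Fintype.ofFinite E
  obtain ⟨c, hc⟩ := hc
  rw [Nat.card_eq_fintype_card]
  have h1 : ∀ a : Fin k, (Finset.univ.filter (fun e => c e = a)).card ≤ p := by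
    intro a
    have h2 : ∀ e ∈ Finset.univ.filter (fun e => c e = a),
        ∀ f ∈ Finset.univ.filter (fun e => c e = a), e ≠ f →
        Disjoint (X.filter (fun v => v ∈ G.ends e))
          (X.filter (fun v => v ∈ G.ends f)) := by
      intro e he f hf hef
      rw [Finset.disjoint_left]
      intro v hv hv'
      simp only [Finset.mem_filter, Finset.mem_univ, true_and] at he hf hv hv'
      exact hc e f hef ⟨v, hv.2, hv'.2⟩ (he.trans hf.symm)
    have h3 := Finset.card_biUnion h2
    have h4 : ∀ e, (X.filter (fun v => v ∈ G.ends e)).card = 2 := by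
      intro e
      obtain ⟨x, y, hxy, hes⟩ := G.exists_ends e
      have : X.filter (fun v => v ∈ G.ends e) = {x, y} := by
        ext v
        simp only [Finset.mem_filter, Finset.mem_insert, Finset.mem_singleton]
        constructor
        · rintro ⟨_, h⟩
          rw [hes, Sym2.mem_iff] at h
          exact h
        · intro h
          have h' : v ∈ G.ends e := by
            rw [hes, Sym2.mem_iff]
            exact h
          exact ⟨hGX e v h', h'⟩
      rw [this, Finset.card_pair hxy]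
    have h5 := Finset.card_le_card (s := (Finset.univ.filter (fun e => c e = a)).biUnion
      (fun e => X.filter (fun v => v ∈ G.ends e))) (t := X) (by
        intro u hu
        rw [Finset.mem_biUnion] at hu
        obtain ⟨e, _, hu⟩ := hu
        exact (Finset.mem_filter.1 hu).1)
    rw [h3, hX] at h5
    simp only [h4, Finset.sum_const, smul_eq_mul] at h5
    omega
  have h6 := Finset.card_eq_sum_card_fiberwise (f := c) (s := Finset.univ) (t := Finset.univ)
    (fun _ _ => Finset.mem_univ _)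
  rw [Finset.card_univ] at h6
  rw [h6]
  calc _ ≤ ∑ _a : Fin k, p := Finset.sum_le_sum (fun a _ => h1 a)
    _ = k * p := by simp

lemma restrict_colorable {G : MGraph V E} {k : ℕ} (h : G.Colorable k) (F : Set E) :
    (restrict G F).Colorable k := by
  obtain ⟨c, hc⟩ := h
  exact ⟨fun e => c e.1, fun e f hef hv =>
    hc e.1 f.1 (fun h => hef (Subtype.ext h)) hv⟩

/-- The non-existence half. -/
theorem containsRing_of {Δ T μ g : ℕ} (hg : 5 ≤ g) (hgo : g % 2 = 1) (hT : 1 ≤ T)
    (hμ : μ ≤ (g / 2 + 1) * T) (hμg : μ ≤ (g / 2) * (T + 1))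
    [Finite V] [Finite E] (G : MGraph V E)
    (hdeg : ∀ u, G.degree u ≤ Δ) (hmul : ∀ u w, u ≠ w → G.mult u w ≤ μ)
    (hcyc : ∀ l, 3 ≤ l → G.HasCycle l → g ≤ l) (hχ : G.HasChromaticIndex (Δ + T + 1)) :
    ContainsRing G g (Δ + T + 1) := by
  classical
  have hnot : ¬ G.Colorable (Δ + T) := by
    intro h
    have := hχ.2 h
    omega
  obtain ⟨v, hv1, hv2, hv3⟩ := exists_ring hg hgo hT hμ hμg _ E G rfl hdeg hmul hcyc hnot
  refine ⟨{e | ∃ i < g, G.ends e = s(v i, v ((i + 1) % g))},
    ⟨v, hv1, fun e he => he, fun i hi => ?_⟩, restrict_colorable hχ.1 _, ?_⟩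
  · obtain ⟨e, he⟩ := hv2 i hi
    exact ⟨e, ⟨i, hi, he⟩, he⟩
  · intro j hj
    by_contra hcon
    push Not at hcon
    have hj' : (restrict G {e | ∃ i < g, G.ends e = s(v i, v ((i + 1) % g))}).Colorable
        (Δ + T) := Colorable.mono hj (by omega)
    have h1 := overfull' (p := g / 2) _ hj' ((Finset.range g).image v) (by
        rw [Finset.card_image_of_injOn, Finset.card_range]
        · omega
        · intro i hi j hj hij
          exact hv1 i (by simpa using hi) j (by simpa using hj) hij)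
      (by
        rintro ⟨e, i, hi, he⟩ u hu
        have hu' : u ∈ G.ends e := hu
        rw [he, Sym2.mem_iff] at hu'
        rw [Finset.mem_image]
        rcases hu' with h | h
        · exact ⟨i, by rw [Finset.mem_range]; exact hi, h.symm⟩
        · exact ⟨(i + 1) % g, by rw [Finset.mem_range]; exact Nat.mod_lt _ (by omega), h.symm⟩)
    have h2 : Nat.card ↥({e : E | ∃ i < g, G.ends e = s(v i, v ((i + 1) % g))} : Set E) =
        Nat.card {e : E // ∃ i < g, G.ends e = s(v i, v ((i + 1) % g))} := rfl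
    rw [h2] at h1
    omega

/-! ### The graph `μ K_5` -/

/-- `μ K_5` -/
def K5 (μ : ℕ) : MGraph (Fin 5) ({p : Fin 5 × Fin 5 // p.1 < p.2} × Fin μ) where
  ends e := s(e.1.1.1, e.1.1.2)
  loopless e h := by
    rw [Sym2.mk_isDiag_iff] at h
    exact absurd h (ne_of_lt e.1.2)

lemma K5_degree (μ : ℕ) (v : Fin 5) : (K5 μ).degree v = 4 * μ := by
  classical
  unfold degree
  have e1 : {e : {p : Fin 5 × Fin 5 // p.1 < p.2} × Fin μ // v ∈ (K5 μ).ends e} ≃
      {p : {p : Fin 5 × Fin 5 // p.1 < p.2} // v = p.1.1 ∨ v = p.1.2} × Fin μ :=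
    { toFun := fun e => (⟨e.1.1, by
        have := e.2
        exact Sym2.mem_iff.1 this⟩, e.1.2)
      invFun := fun e => ⟨(e.1.1, e.2), Sym2.mem_iff.2 e.1.2⟩
      left_inv := fun e => rfl
      right_inv := fun e => rfl }
  rw [Nat.card_congr e1, Nat.card_prod, Nat.card_eq_fintype_card (α := Fin μ), Fintype.card_fin,
    Nat.card_eq_fintype_card]
  congr 1
  clear e1
  revert v
  decide

lemma K5_pair {p q : {p : Fin 5 × Fin 5 // p.1 < p.2}} (h : s(p.1.1, p.1.2) = s(q.1.1, q.1.2)) :
    p = q := by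
  rw [Sym2.eq_iff] at h
  rcases h with ⟨h1, h2⟩ | ⟨h1, h2⟩
  · exact Subtype.ext (Prod.ext h1 h2)
  · exfalso
    have h3 := p.2
    have h4 := q.2
    rw [h1, h2] at h3
    exact absurd h3 (not_lt.2 h4.le)

lemma K5_mult_le (μ : ℕ) (u w : Fin 5) : (K5 μ).mult u w ≤ μ := by
  unfold mult
  have hinj : Function.Injective
      (fun x : {e : {p : Fin 5 × Fin 5 // p.1 < p.2} × Fin μ // (K5 μ).ends e = s(u, w)} =>
        x.1.2) := by
    rintro ⟨⟨p, a⟩, hx⟩ ⟨⟨q, b⟩, hy⟩ h
    have h1 : p = q := K5_pair (hx.trans hy.symm)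
    subst h1
    simp only at h
    subst h
    rfl
  have := Nat.card_le_card_of_injective _ hinj
  simpa using this

lemma K5_mult (μ : ℕ) : (K5 μ).mult 0 1 = μ := by
  apply le_antisymm (K5_mult_le μ 0 1)
  unfold mult
  have hinj : Function.Injective
      (fun a : Fin μ => (⟨(⟨(0, 1), by decide⟩, a), rfl⟩ :
        {e : {p : Fin 5 × Fin 5 // p.1 < p.2} × Fin μ // (K5 μ).ends e = s(0, 1)})) := by
    intro a b h
    have h1 := congrArg Subtype.val h
    exact (Prod.ext_iff.1 h1).2
  have := Nat.card_le_card_of_injective _ hinj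
  simpa using this

lemma K5_colorable (μ : ℕ) : (K5 μ).Colorable (5 * μ) := by
  refine ⟨fun e => finProdFinEquiv (e.1.1.1 + e.1.1.2, e.2), ?_⟩
  rintro ⟨p, a⟩ ⟨q, b⟩ hef ⟨v, hv, hw⟩ h
  have h1 := finProdFinEquiv.injective h
  rw [Prod.ext_iff] at h1
  obtain ⟨h1, h2⟩ := h1
  simp only at h1 h2
  subst h2
  apply hef
  have hv' : v = p.1.1 ∨ v = p.1.2 := Sym2.mem_iff.1 hv
  have hw' : v = q.1.1 ∨ v = q.1.2 := Sym2.mem_iff.1 hw
  have key : ∀ (v : Fin 5) (p q : {p : Fin 5 × Fin 5 // p.1 < p.2}), (v = p.1.1 ∨ v = p.1.2) →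
      (v = q.1.1 ∨ v = q.1.2) → p.1.1 + p.1.2 = q.1.1 + q.1.2 → p = q := by decide
  rw [key v p q hv' hw' h1]

lemma K5_card (μ : ℕ) : Nat.card ({p : Fin 5 × Fin 5 // p.1 < p.2} × Fin μ) = 10 * μ := by
  rw [Nat.card_prod, Nat.card_eq_fintype_card, Nat.card_eq_fintype_card, Fintype.card_fin]
  rfl

lemma K5_chromatic (μ : ℕ) : (K5 μ).HasChromaticIndex (5 * μ) := by
  refine ⟨K5_colorable μ, ?_⟩
  intro j hj
  have h1 := (K5 μ).overfull (p := 2) hj (by simp)
  rw [K5_card] at h1
  omega

lemma K5_girth {μ : ℕ} (hμ : 1 ≤ μ) : (K5 μ).HasGirth 3 := by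
  refine ⟨⟨le_rfl, ?_⟩, fun l hl => hl.1⟩
  refine ⟨fun i => if i = 0 then 0 else if i = 1 then 1 else 2, ?_, ?_⟩
  · intro i hi j hj h
    interval_cases i <;> interval_cases j <;> simp_all
  · intro i hi
    interval_cases i
    · exact ⟨(⟨(0, 1), by decide⟩, ⟨0, hμ⟩), rfl⟩
    · exact ⟨(⟨(1, 2), by decide⟩, ⟨0, hμ⟩), rfl⟩
    · exact ⟨(⟨(0, 2), by decide⟩, ⟨0, hμ⟩), Sym2.eq_swap⟩

lemma K5_noRing {μ : ℕ} (hμ : 1 ≤ μ) : ¬ ContainsRing (K5 μ) 3 (5 * μ) := by
  classical
  rintro ⟨F, ⟨v, hv1, hv2, hv3⟩, hχ⟩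
  -- at most `3 μ` edges
  have hF : Nat.card F ≤ 3 * μ := by
    have hch : ∀ e : F, ∃ i : Fin 3, (K5 μ).ends e.1 = s(v i, v ((i.1 + 1) % 3)) := by
      intro e
      obtain ⟨i, hi, h⟩ := hv2 e.1 e.2
      exact ⟨⟨i, hi⟩, h⟩
    choose ix hix using hch
    have hinj : Function.Injective (fun e : F => (ix e, e.1.2)) := by
      intro e f hef
      rw [Prod.ext_iff] at hef
      obtain ⟨h1, h2⟩ := hef
      simp only at h1 h2
      have h3 : (K5 μ).ends e.1 = (K5 μ).ends f.1 := by
        rw [hix e, hix f, h1]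
      have h4 : e.1.1 = f.1.1 := K5_pair h3
      exact Subtype.ext (Prod.ext h4 h2)
    have := Nat.card_le_card_of_injective _ hinj
    simpa [Nat.card_prod] using this
  have hcol : (restrict (K5 μ) F).Colorable (3 * μ) := by
    have : Fintype F := Fintype.ofFinite F
    have hle : Fintype.card F ≤ Fintype.card (Fin (3 * μ)) := by
      rw [Fintype.card_fin, ← Nat.card_eq_fintype_card]
      exact hF
    obtain ⟨c⟩ := Function.Embedding.nonempty_of_card_le hle
    exact ⟨c, fun e f hef _ h => hef (c.injective h)⟩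
  have := hχ.2 hcol
  omega

end Pool.Agent.X72.SteffenRing
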