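import Pool.Agent.X72.SteffenRing.Defs

set_option autoImplicit false

namespace Pool.Agent.X72.SteffenRing

open Pool.Agent.Results.MP_633d19_co.SmallDegree
open Pool.Agent.Results.MP_633d19_co.SmallDegree.MGraph
open Pool.Agent.W998.KG

variable {V E : Type}

/-- Size of a closed elementary set. -/
lemma tree_size [Finite V] [Finite E] {G : MGraph V E} {Δ T l n : ℕ} (hT : 1 ≤ T)
    (hdeg : ∀ u, G.degree u ≤ Δ) {y : ℕ → V} {f h : ℕ → E} {pr : ℕ → ℕ}
    {α β : Fin (Δ + T)} {c : E → Option (Fin (Δ + T))} (hl : 3 ≤ l)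
    (hTr : Tr G l n y f h pr α β c) (hel : Elem G l n y α β c) : n * T + 2 ≤ Δ := by
  classical
  have hcard : ∀ i ≤ n, T ≤ (G.ms c α β (y i)).card := by
    intro i hi
    rcases Nat.lt_or_ge i l with h1 | h1
    · have := hTr.st.card_ms hl hdeg h1
      omega
    · have := Pool.Agent.W592.KG.DEG.card_ms' (c := c) (hdeg (y i)) (hel.2 i h1 hi).1
        (hel.2 i h1 hi).2
      omega
  have hdisj : ∀ i ∈ Finset.range (n + 1), ∀ j ∈ Finset.range (n + 1), i ≠ j →
      Disjoint (G.ms c α β (y i)) (G.ms c α β (y j)) := by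
    intro i hi j hj hij
    rw [Finset.mem_range] at hi hj
    rw [Finset.disjoint_left]
    intro γ h1 h2
    rw [mem_ms] at h1 h2
    rcases Nat.lt_or_gt_of_ne hij with hlt | hlt
    · exact hel.1 i j hlt (by omega) γ h1.1 h1.2.1 h1.2.2 h2.2.2
    · exact hel.1 j i hlt (by omega) γ h1.1 h1.2.1 h2.2.2 h1.2.2
  have h1 := Finset.card_biUnion hdisj
  have h2 : (Finset.range (n + 1)).biUnion (fun i => G.ms c α β (y i)) ⊆
      Finset.univ \ {α, β} := by
    intro a ha
    rw [Finset.mem_biUnion] at ha
    obtain ⟨i, _, ha⟩ := ha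
    rw [mem_ms] at ha
    simp [ha.1, ha.2.1]
  have h3 := Finset.card_le_card h2
  rw [h1, Finset.card_sdiff_of_subset (Finset.subset_univ _), Finset.card_univ, Fintype.card_fin,
    Finset.card_pair hTr.st.ne] at h3
  have h4 : (n + 1) * T ≤ ∑ i ∈ Finset.range (n + 1), (G.ms c α β (y i)).card := by
    have : ∑ i ∈ Finset.range (n + 1), T ≤
        ∑ i ∈ Finset.range (n + 1), (G.ms c α β (y i)).card := by
      apply Finset.sum_le_sum
      intro i hi
      exact hcard i (by rw [Finset.mem_range] at hi; omega)
    simpa using this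
  have h5 : (n + 1) * T = n * T + T := by ring
  have h6 : 1 ≤ (n + 1) * T := Nat.mul_pos (by omega) (by omega)
  omega

/-- A chord of an odd cycle gives a shorter odd cycle. -/
lemma odd_chord {G : MGraph V E} {l : ℕ} {y : ℕ → V} (hl : 3 ≤ l) (hodd : l % 2 = 1)
    (hgir : ∀ m, 3 ≤ m → m % 2 = 1 → G.HasCycle m → l ≤ m)
    (inj : ∀ i < l, ∀ j < l, y i = y j → i = j)
    (ed : ∀ i < l, ∃ e, G.ends e = s(y i, y (nx l i))) {i j : ℕ} (hij : i + 1 < j) (hj : j < l)
    (hne : ¬ (i = 0 ∧ j + 1 = l)) (hadj : ∃ e, G.ends e = s(y i, y j)) : False := by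
  rcases Nat.mod_two_eq_zero_or_one (j - i + 1) with hpar | hpar
  · have h2 : l ≤ l - (j - i) + 1 := by
      apply hgir (l - (j - i) + 1) (by omega) (by omega)
      refine ⟨fun m => y ((j + m) % l), ?_, ?_⟩
      · intro a ha b hb hab
        have h3 := inj _ (Nat.mod_lt _ (by omega)) _ (Nat.mod_lt _ (by omega)) hab
        have h4 : (j + a) ≡ (j + b) [MOD l] := h3
        have h5 := Nat.ModEq.add_left_cancel' j h4
        have h6 : a % l = b % l := h5
        rcases Nat.lt_or_ge a l with h7 | h7
        · rcases Nat.lt_or_ge b l with h8 | h8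
          · rwa [Nat.mod_eq_of_lt h7, Nat.mod_eq_of_lt h8] at h6
          · omega
        · omega
      · intro m hm
        rcases Nat.lt_or_ge m (l - (j - i)) with h | h
        · rw [Nat.mod_eq_of_lt (by omega)]
          obtain ⟨e, he⟩ := ed ((j + m) % l) (Nat.mod_lt _ (by omega))
          refine ⟨e, ?_⟩
          rw [he, ← mod_eq_nx (Nat.mod_lt _ (by omega)), Nat.mod_add_mod]
          rfl
        · have : m = l - (j - i) := by omega
          subst this
          obtain ⟨e, he⟩ := hadj
          refine ⟨e, ?_⟩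
          rw [Nat.mod_self, he]
          have e1 : j + (l - (j - i)) = i + l := by omega
          have e2 : (j + 0) % l = j := by rw [Nat.add_zero, Nat.mod_eq_of_lt hj]
          dsimp only
          rw [e1, e2, Nat.add_mod_right, Nat.mod_eq_of_lt (by omega)]
    omega
  · have h1 : l ≤ j - i + 1 := by
      apply hgir (j - i + 1) (by omega) hpar
      refine ⟨fun m => y (i + m), ?_, ?_⟩
      · intro a ha b hb hab
        have := inj _ (by omega) _ (by omega) hab
        omega
      · intro m hm
        rcases Nat.lt_or_ge m (j - i) with h | h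
        · rw [Nat.mod_eq_of_lt (by omega)]
          obtain ⟨e, he⟩ := ed (i + m) (by omega)
          refine ⟨e, ?_⟩
          have : nx l (i + m) = i + (m + 1) := by
            unfold nx
            rw [if_neg (by omega)]
            omega
          rw [he, this]
        · have : m = j - i := by omega
          subst this
          obtain ⟨e, he⟩ := hadj
          refine ⟨e, ?_⟩
          rw [Nat.mod_self, he]
          have e1 : i + (j - i) = j := by omega
          dsimp only
          rw [e1, Nat.add_zero, Sym2.eq_swap]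
    omega

/-- A graph with odd girth at least `2h+1` which is not `Δ + T`-colourable, where
`Δ < (2h+2) T + 2`, contains an overfull ring of order `2h+1`. -/
theorem exists_ring_odd {Δ T h : ℕ} (hT : 1 ≤ T)
    (hΔ : Δ < (2 * h + 2) * T + 2) (n : ℕ) :
    ∀ {V : Type} (E : Type) [Finite V] [Finite E] (G : MGraph V E), Nat.card E = n →
      (∀ u, G.degree u ≤ Δ) →
      (∀ l, 3 ≤ l → l % 2 = 1 → G.HasCycle l → 2 * h + 1 ≤ l) → ¬ G.Colorable (Δ + T) →
      ∃ v : ℕ → V, (∀ i < 2 * h + 1, ∀ j < 2 * h + 1, v i = v j → i = j) ∧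
        (∀ i < 2 * h + 1, ∃ e, G.ends e = s(v i, v ((i + 1) % (2 * h + 1)))) ∧
        (Δ + T) * h < Nat.card {e : E // ∃ i < 2 * h + 1, G.ends e =
          s(v i, v ((i + 1) % (2 * h + 1)))} := by
  classical
  have hINN : PartINN := Pool.Agent.W648.KG.INN.main (Pool.Agent.W675.KG.EXI.main
    Pool.Agent.W29.KG.main Pool.Agent.W460.KG.ODD.main Pool.Agent.W191.KG.SWP.main)
  have hTRE : PartTRE := Pool.Agent.W992.KG.TRE.main Pool.Agent.W411.KG.main
  have hsize : ∀ n', n' % 2 = 0 → n' * T + 2 ≤ Δ → n' ≤ 2 * h := by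
    intro n' hn' hb
    have h4 : n' * T < (2 * h + 2) * T := by omega
    have h5 : n' < 2 * h + 2 := Nat.lt_of_mul_lt_mul_right h4
    omega
  induction n with
  | zero =>
    intro V E _ _ G hE _ _ hG
    exfalso
    apply hG
    have : IsEmpty E := by
      rcases Nat.card_eq_zero.mp hE with h | h
      · exact h
      · exact absurd ‹Finite E› h.not_finite
    exact ⟨fun e => (this.false e).elim, fun e => (this.false e).elim⟩
  | succ n ih =>
    intro V E _ _ G hE hdeg hcyc hG
    obtain ⟨e0⟩ : Nonempty E := by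
      have : 0 < Nat.card E := by omega
      exact (Nat.card_pos_iff.mp this).1
    by_cases hdel : (G.del e0).Colorable (Δ + T)
    · obtain ⟨l, y, f, α, β, c, hl, hodd, H⟩ :=
        Pool.Agent.W52.KG.STA.main G (k := Δ + T) (Δ := Δ) (by omega) hdeg hG e0 hdel
      have hlg : 2 * h + 1 ≤ l := hcyc l hl hodd
        ⟨y, H.inj, fun i hi => ⟨f i, by rw [mod_eq_nx hi, H.ed i hi]⟩⟩
      have hb := H.bound hl hodd hG hdeg (by omega)
      have hlg2 : l = 2 * h + 1 := by
        have e1 : Δ + T - Δ = T := by omega
        rw [e1] at hb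
        have e2 : l * T = (l - 1) * T + T := by
          obtain ⟨l', rfl⟩ : ∃ l', l = l' + 1 := ⟨l - 1, by omega⟩
          rw [Nat.add_sub_cancel]
          ring
        have := hsize (l - 1) (by omega) (by omega)
        omega
      have hcl : ∀ c : E → Option (Fin (Δ + T)), G.State l y f α β c → ∀ a : Fin (Δ + T),
          (∃ j < l, G.Miss c (y j) a) → ∀ i < l, ¬ Lv G l y c a i := by
        intro c' H' a ⟨j, hj, hja⟩ i hi ⟨e, he, hca, hout⟩
        obtain ⟨n', y', h', pr, hln, hy', hTr, hcl⟩ := Pool.Agent.W733.KG.CLS.main hl H'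
        have hel := hTRE hG hdeg (by omega) hl hodd hln hTr
        have hev := Pool.Agent.W33.KG.EVN.main hl hodd hln hTr hel hcl
        have hsz := hsize n' hev (tree_size (by omega) hdeg hl hTr hel)
        have hln' : l = n' + 1 := by omega
        obtain ⟨i', hi', hends⟩ := hcl i (by omega) e a (by rw [hy' i hi]; exact he) hca
          ⟨j, by omega, by rw [hy' j hj]; exact hja⟩
        rw [hy' i hi, hy' i' (by omega)] at hends
        have h1 := hout i' (by omega) (by rw [hends]; exact Sym2.mem_mk_right _ _)
        rw [h1] at hends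
        exact G.loopless e (by rw [hends]; exact Sym2.mk_isDiag_iff.mpr rfl)
      have hex : ∀ c : E → Option (Fin (Δ + T)), G.State l y f α β c →
          ∀ i < l, (G.ms c α β (y i)).Nonempty := by
        intro c' H' i hi
        have := H'.card_ms hl hdeg hi
        rw [← Finset.card_pos]
        omega
      have hed : ∀ i < l, ∃ e, G.ends e = s(y i, y (nx l i)) := fun i hi => ⟨f i, H.ed i hi⟩
      have hch : ∀ i < l, ∀ j < l, (∃ e, G.ends e = s(y i, y j)) → j = nx l i ∨ i = nx l j := by
        have key : ∀ i j, i < j → j < l → (∃ e, G.ends e = s(y i, y j)) →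
            j = nx l i ∨ i = nx l j := by
          intro i j hij hj hadj
          by_contra hcon
          push Not at hcon
          obtain ⟨h1, h2⟩ := hcon
          have h3 : i + 1 < j := by
            by_contra h
            apply h1
            unfold nx
            rw [if_neg (by omega)]
            omega
          have h4 : ¬ (i = 0 ∧ j + 1 = l) := by
            rintro ⟨h5, h6⟩
            apply h2
            unfold nx
            rw [if_pos h6, h5]
          exact odd_chord hl hodd (fun m hm hmo hc => by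
            rw [hlg2]; exact hcyc m hm hmo hc) H.inj hed h3 hj h4 hadj
        intro i hi j hj hadj
        rcases Nat.lt_trichotomy i j with h | h | h
        · exact key i j h hj hadj
        · exfalso
          subst h
          obtain ⟨e, he⟩ := hadj
          exact G.loopless e (by rw [he]; exact Sym2.mk_isDiag_iff.mpr rfl)
        · obtain ⟨e, he⟩ := hadj
          rcases key j i h hi ⟨e, by rw [he, Sym2.eq_swap]⟩ with h1 | h1
          · exact Or.inr h1
          · exact Or.inl h1
      have h1 := ring_count hl H hch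
        (fun a h2 h3 => hINN hl hodd hG hcl hex H a h2 h3)
      rw [← hlg2]
      refine ⟨y, H.inj, fun i hi => ⟨f i, by rw [mod_eq_nx hi, H.ed i hi]⟩, ?_⟩
      have h2 : Nat.card {e : E // ∃ i < l, G.ends e = s(y i, y ((i + 1) % l))} =
          Nat.card {e : E // ∃ i < l, G.ends e = s(y i, y (nx l i))} := by
        apply Nat.card_congr
        apply Equiv.subtypeEquivRight
        intro e
        constructor
        · rintro ⟨i, hi, h⟩
          exact ⟨i, hi, by rw [h, mod_eq_nx hi]⟩
        · rintro ⟨i, hi, h⟩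
          exact ⟨i, hi, by rw [h, mod_eq_nx hi]⟩
      rw [h2]
      have hk2 : 2 ≤ Δ + T := by
        have := (Finset.card_pair H.ne)
        have h3 : ({α, β} : Finset (Fin (Δ + T))).card ≤ Fintype.card (Fin (Δ + T)) :=
          Finset.card_le_univ _
        rw [this, Fintype.card_fin] at h3
        exact h3
      obtain ⟨K, hK⟩ : ∃ K, Δ + T = K + 2 := ⟨Δ + T - 2, by omega⟩
      rw [hK] at h1 ⊢
      simp only [Nat.add_sub_cancel] at h1
      have e1 : l - 1 = 2 * h := by omega
      rw [e1] at h1
      have e3 : K * (2 * h) + 2 * l = 2 * ((K + 2) * h) + 2 := by rw [hlg2]; ring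
      omega
    · have hcard : Nat.card {e : E // e ≠ e0} = n := by
        have := Fintype.ofFinite E
        rw [Nat.card_eq_fintype_card] at hE ⊢
        have h1 := Fintype.card_subtype_compl (fun e : E => e = e0)
        simp only [Fintype.card_subtype_eq] at h1
        rw [hE] at h1
        simpa using h1
      obtain ⟨v, hv1, hv2, hv3⟩ := ih {e : E // e ≠ e0} (G.del e0) hcard
        (fun u => (G.del_degree e0 u).trans (hdeg u))
        (by
          intro l h1 ho ⟨v, h3, h4⟩
          refine hcyc l h1 ho ⟨v, h3, fun i hi => ?_⟩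
          obtain ⟨e, he⟩ := h4 i hi
          exact ⟨e.1, he⟩)
        hdel
      refine ⟨v, hv1, fun i hi => ?_, lt_of_lt_of_le hv3 ?_⟩
      · obtain ⟨e, he⟩ := hv2 i hi
        exact ⟨e.1, he⟩
      · apply Nat.card_le_card_of_injective
          (fun x : {e : {e : E // e ≠ e0} // ∃ i < 2 * h + 1, (G.del e0).ends e =
              s(v i, v ((i + 1) % (2 * h + 1)))} =>
            (⟨x.1.1, x.2⟩ : {e : E // ∃ i < 2 * h + 1, G.ends e =
              s(v i, v ((i + 1) % (2 * h + 1)))}))
        intro x y hxy
        have := congrArg Subtype.val hxy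
        exact Subtype.ext (Subtype.ext this)

end Pool.Agent.X72.SteffenRing
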